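import Pool.Agent.H6.SpC

namespace Pool.Agent.Results.MP_0be93d_co.Iff

open Pool.Agent.H6.Sp Matrix Cardinal

theorem result (Γ : Submonoid (Matrix (Fin 3) (Fin 3) ℝ))
    (h : Γ = orthogonalGroup (Fin 3) ℝ ∨ Γ = specialOrthogonalGroup (Fin 3) ℝ) :
    dnum Γ = 2 ∧
    ((∃ W ⊆ Sph, ¬ W.Countable ∧ (∀ g ∈ Γ, (∀ w ∈ W, g *ᵥ w = w) → g = 1) ∧
        ¬ Ext Γ (dnum Γ) W) ↔ (2 : Cardinal.{0}) ^ ℵ₁ = 2 ^ ℵ₀) := by
  have h1 : ∀ g ∈ Γ, gᵀ * g = 1 := by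
    rcases h with rfl | rfl
    · exact fun g hg => (mem_orthogonalGroup_iff' _ _).1 hg
    · exact fun g hg => (mem_orthogonalGroup_iff' _ _).1 (mem_specialOrthogonalGroup_iff.1 hg).1
  have h2 : specialOrthogonalGroup (Fin 3) ℝ ≤ Γ := by
    rcases h with rfl | rfl
    · exact fun g hg => (mem_specialOrthogonalGroup_iff.1 hg).1
    · exact le_rfl
  rw [dnum_eq Γ h1 h2]
  refine ⟨rfl, ?_, neg Γ h1 h2⟩
  rintro ⟨W, a1, a2, a3, a4⟩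
  by_contra hc
  exact a4 (pos Γ h1 a1 a2 a3 hc)

end Pool.Agent.Results.MP_0be93d_co.Iff
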